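import Pool.Agent.W810.KP.Defs

/-!
An open connection of the two ends of an edge (off the edge) excludes a dual connection of the two
faces next to the edge (off the edge): both together would give a dual cycle through the edge
which does not meet an open path joining the ends.
-/

namespace Pool.Agent.W853.KPDup

open H974 Finset

/-- A dual path uses finitely many edges, so it stays to the right of a vertical line. -/
theorem dreach_bdd {G : Set Edg} {f g : Vtx} (h : DReach G f g) :
    ∃ a : ℤ, DReach (G ∩ {e | a < e.1}) f g := by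
  induction h with
  | refl => exact ⟨0, DReach.refl _ _⟩
  | @tail g' g'' _ hstep ih =>
    obtain ⟨a, ha⟩ := ih
    obtain ⟨e, he, hcase⟩ := hstep
    refine ⟨min a (e.1 - 1), ?_⟩
    have h1 : DReach (G ∩ {e' | min a (e.1 - 1) < e'.1}) f g' := by
      refine DReach.mono ?_ ha
      rintro e' ⟨h1, h2⟩
      refine ⟨h1, ?_⟩
      have h3 : a < e'.1 := h2
      show min a (e.1 - 1) < e'.1
      omega
    refine h1.trans (DAdj.reach ⟨e, ⟨he, ?_⟩, hcase⟩)
    show min a (e.1 - 1) < e.1
    omega

/-- A dual cycle supported to the right of a vertical line, which does not meet an open path,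
does not separate the ends of the path: it vanishes on an edge joining them. -/
theorem cycle_path {a : ℤ} {Z : Edg → ZMod 2} (hZ0 : ∀ e : Edg, e.1 ≤ a → Z e = 0)
    (hbd : ∀ x y, bd Z x y = 0) {G : Set Edg} (hGZ : ∀ e ∈ G, Z e = 0) {e : Edg}
    (hr : Reach G (src e) (tgt e)) : Z e = 0 := by
  set s : ℤ → ℤ → ZMod 2 := fun x y => ∑ i ∈ Finset.Ico a x, Z (i, y, true) with hs
  have s0 : ∀ x y, x ≤ a → s x y = 0 := by
    intro x y hx
    simp only [hs]
    rw [Finset.Ico_eq_empty (by omega), Finset.sum_empty]
  have sH : ∀ x y, s (x + 1) y = s x y + Z (x, y, true) := by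
    intro x y
    by_cases hx : a ≤ x
    · simp only [hs]
      rw [sum_Ico_int_succ hx]
    · rw [s0 _ _ (by omega), s0 _ _ (by omega), hZ0 _ (by simp only; omega), add_zero]
  have sV : ∀ (n : ℕ) (y : ℤ), s (a + n) (y + 1) + s (a + n) y = Z (a + n, y, false) := by
    intro n y
    induction n with
    | zero =>
      rw [s0 _ _ (by simp), s0 _ _ (by simp), hZ0 _ (by simp), add_zero]
    | succ n ih =>
      have e1 : a + ((n + 1 : ℕ) : ℤ) = (a + n) + 1 := by push_cast; ring
      rw [e1, sH, sH]
      have h3 := hbd (a + n) y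
      unfold bd at h3
      have h5 := zmod2_add_self (Z (a + n + 1, y, false))
      linear_combination ih + h3 - h5
  have sV' : ∀ x y, s x (y + 1) = s x y + Z (x, y, false) := by
    intro x y
    by_cases hx : a ≤ x
    · obtain ⟨n, hn⟩ := Int.eq_ofNat_of_zero_le (sub_nonneg.mpr hx)
      have e1 : x = a + n := by omega
      have h3 := sV n y
      rw [← e1] at h3
      have h4 := zmod2_add_self (s x y)
      linear_combination h3 - h4
    · rw [s0 _ _ (by omega), s0 _ _ (by omega), hZ0 _ (by simp only; omega), add_zero]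
  have key : ∀ g : Edg, s (tgt g).1 (tgt g).2 = s (src g).1 (src g).2 + Z g := by
    rintro ⟨x, y, _ | _⟩
    · simpa using sV' x y
    · simpa using sH x y
  have hpath : ∀ w : Vtx, Reach G (src e) w → s w.1 w.2 = s (src e).1 (src e).2 := by
    intro w hw
    induction hw with
    | refl => rfl
    | @tail w' w'' _ hstep ih =>
      obtain ⟨g, hg, hcase⟩ := hstep
      have h3 := key g
      rw [hGZ g hg, add_zero] at h3
      rcases hcase with ⟨h4, h5⟩ | ⟨h4, h5⟩
      · rw [← h5, h3, h4]; exact ih
      · rw [← h4, ← h3, h5]; exact ih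
  have h1 := hpath _ hr
  have h2 := key e
  rw [h1] at h2
  simpa using h2.symm

theorem main : Pool.Agent.W810.KP.S_dup := by
  intro F e hr h
  obtain ⟨a, ha⟩ := dreach_bdd h
  obtain ⟨Z, hZ1, hZ2⟩ := chain_of_dreach ha
  have h1 : Z e + b2 (e = e) = 0 := by
    refine cycle_path (a := min a (e.1 - 1)) (Z := fun e' => Z e' + b2 (e' = e))
      (G := F \ {e}) ?_ ?_ ?_ hr
    · intro e' he'
      have hee : e' ≠ e := by
        rintro rfl
        omega
      have hz : Z e' = 0 := by
        by_contra hcon
        have h3 : a < e'.1 := (hZ1 e' hcon).2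
        omega
      simp only [hz, b2_not_of hee, add_zero]
    · intro x y
      rw [bd_add, hZ2, bd_single]
      exact zmod2_add_self _
    · rintro e' ⟨he', hee⟩
      have hz : Z e' = 0 := by
        by_contra hcon
        exact (hZ1 e' hcon).1.1 he'
      have hee' : e' ≠ e := hee
      simp only [hz, b2_not_of hee', add_zero]
  have h2 : Z e = 0 := by
    by_contra hcon
    exact (hZ1 e hcon).1.2 rfl
  rw [h2, b2_of (rfl : e = e), zero_add] at h1
  exact one_ne_zero h1

end Pool.Agent.W853.KPDup
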