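import Pool.Agent.W868.FI.Stms2

/-!
# Project FI, part MANY: many stars in far windows
-/

open MeasureTheory Set

namespace Pool.Agent.W853.FIMANY

open Pool.Agent.W868.FI

section

variable {Γ : Type} [Group Γ]

/-- a far sequence -/
theorem exists_far [Infinite Γ] (D K : Finset Γ) : ∃ H : ℕ → Γ,
    (∀ i j, ∀ g ∈ D, ∀ g' ∈ D, H i * g = H j * g' → i = j ∧ g = g') ∧
    (∀ i j, ∀ a ∈ K, ∀ a' ∈ K, a * H i = a' * H j → i = j ∧ a = a') := by
  classical
  obtain ⟨H, -, hH⟩ := exists_seq_of_forall_finset_exists (fun _ : Γ => True)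
    (fun x y => (∀ g ∈ D, ∀ g' ∈ D, x * g ≠ y * g') ∧ (∀ a ∈ K, ∀ a' ∈ K, a * x ≠ a' * y)) (by
      intro s _
      let bad : Finset Γ := (s ×ˢ (D ×ˢ D)).image (fun p => p.1 * p.2.1 * p.2.2⁻¹) ∪
        (s ×ˢ (K ×ˢ K)).image (fun p => p.2.2⁻¹ * (p.2.1 * p.1))
      obtain ⟨y, hy⟩ := Infinite.exists_notMem_finset bad
      refine ⟨y, trivial, fun x hx => ⟨?_, ?_⟩⟩
      · intro g hg g' hg' e
        apply hy
        apply Finset.mem_union_left
        rw [Finset.mem_image]
        exact ⟨(x, g, g'), by simp [hx, hg, hg'], by simp [e]⟩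
      · intro g hg g' hg' e
        apply hy
        apply Finset.mem_union_right
        rw [Finset.mem_image]
        exact ⟨(x, g, g'), by simp [hx, hg, hg'], by simp [e]⟩)
  refine ⟨H, ?_, ?_⟩
  · intro i j g hg g' hg' e
    rcases lt_trichotomy i j with h | h | h
    · exact absurd e ((hH i j h).1 g hg g' hg')
    · subst h
      exact ⟨rfl, mul_left_cancel e⟩
    · exact absurd e.symm ((hH j i h).1 g' hg' g hg)
  · intro i j g hg g' hg' e
    rcases lt_trichotomy i j with h | h | h
    · exact absurd e ((hH i j h).2 g hg g' hg')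
    · subst h
      exact ⟨rfl, mul_right_cancel e⟩
    · exact absurd e.symm ((hH j i h).2 g' hg' g hg)

/-- the probability that all events fail -/
theorem key (ν : Measure Bool) [IsProbabilityMeasure ν] (K : Finset Γ) (φ : (K → Bool) → Bool)
    (H : ℕ → Γ) (hK : ∀ i j, ∀ a ∈ K, ∀ a' ∈ K, a * H i = a' * H j → i = j ∧ a = a') (g : Γ)
    (B : Finset ℕ) :
    iid Γ ν {y | ∀ i ∈ B, φ (fun a : K => y (a.1 * (H i * g))) = false} =
      (Measure.infinitePi (fun _ : K => ν) {u | φ u = false}) ^ B.card := by
  classical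
  have hm : MeasurableSet {u : K → Bool | φ u = false} := MeasurableSet.of_discrete
  let f : ℕ × K → Γ := fun p => p.2.1 * (H p.1 * g)
  have hf : Function.Injective f := by
    rintro ⟨i, a, ha⟩ ⟨j, a', ha'⟩ e
    have e' : a * H i = a' * H j := by
      simp only [f] at e
      rw [← mul_assoc, ← mul_assoc] at e
      exact mul_right_cancel e
    obtain ⟨h1, h2⟩ := hK i j a ha a' ha' e'
    subst h1; subst h2; rfl
  have h1 := MeasureTheory.Measure.map_infinitePi_infinitePi_of_inj (P := fun _ : Γ => ν) hf
  have h2 : (Measure.infinitePi (fun _ : ℕ × K => ν)).map (MeasurableEquiv.curry ℕ K Bool) =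
      Measure.infinitePi (fun _ : ℕ => Measure.infinitePi (fun _ : K => ν)) :=
    Measure.infinitePi_map_curry (fun (_ : ℕ) (_ : K) => ν)
  have h3 := Measure.infinitePi_pi (fun _ : ℕ => Measure.infinitePi (fun _ : K => ν)) (s := B)
    (t := fun _ => {u : K → Bool | φ u = false}) (fun _ _ => hm)
  have hm2 : MeasurableSet (Set.pi (B : Set ℕ) (fun _ => {u : K → Bool | φ u = false})) :=
    MeasurableSet.pi B.countable_toSet (fun _ _ => hm)
  rw [Finset.prod_const] at h3
  rw [← h3, ← h2, Measure.map_apply (MeasurableEquiv.measurable _) hm2, ← h1,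
    Measure.map_apply (by fun_prop) ((MeasurableEquiv.measurable _) hm2)]
  rfl

end

theorem many : S_MANY := by
  intro Γ _ _ _ ν _ b hb hpos D M ε hε
  classical
  obtain ⟨K, hK⟩ := hb
  obtain ⟨H, hH1, hH2⟩ := exists_far D K
  let φ : (K → Bool) → Bool := fun u => b (fun γ => if h : γ ∈ K then u ⟨γ, h⟩ else false)
  have hφ : ∀ y : Γ → Bool, b y = φ (fun a : K => y a.1) := by
    intro y
    apply hK
    intro a ha
    have ha' : a ∈ K := ha
    simp [ha']
  have hφ2 : ∀ (y : Γ → Bool) (γ : Γ), b (sh γ y) = φ (fun a : K => y (a.1 * γ)) := by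
    intro y γ
    rw [hφ]
    rfl
  set q := Measure.infinitePi (fun _ : K => ν) {u | φ u = false} with hq
  have hm : MeasurableSet {u : K → Bool | φ u = true} := MeasurableSet.of_discrete
  have hq1 : q < 1 := by
    have h1 := MeasureTheory.Measure.map_infinitePi_infinitePi_of_inj (P := fun _ : Γ => ν)
      (f := fun a : K => a.1) Subtype.val_injective
    have h2 : 0 < Measure.infinitePi (fun _ : K => ν) {u | φ u = true} := by
      rw [← h1, Measure.map_apply (by fun_prop) hm]
      have : (fun (ω : Γ → Bool) (i : K) => ω i.1) ⁻¹' {u | φ u = true} = {y | b y = true} := by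
        ext y
        simp only [mem_preimage, Set.mem_ofPred_eq]
        rw [hφ y]
      rw [this]
      exact hpos
    have h3 : {u | φ u = false} = {u : K → Bool | φ u = true}ᶜ := by
      ext u
      simp
    rw [hq, h3, prob_compl_eq_one_sub hm]
    exact ENNReal.sub_lt_self ENNReal.one_ne_top one_ne_zero h2.ne'
  have htend : Filter.Tendsto (fun n : ℕ => ((D.card * M : ℕ) : ENNReal) * q ^ n) Filter.atTop
      (nhds 0) := by
    have := ENNReal.Tendsto.const_mul (a := ((D.card * M : ℕ) : ENNReal))
      (ENNReal.tendsto_pow_atTop_nhds_zero_of_lt_one hq1) (Or.inr (ENNReal.natCast_ne_top _))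
    simpa using this
  have hε' : (0 : ENNReal) < ENNReal.ofReal ε := ENNReal.ofReal_pos.mpr hε
  obtain ⟨n, hn⟩ := (htend.eventually_le_const hε').exists
  refine ⟨M * n, fun i => H i.val, ?_, ?_⟩
  · intro i j g hg g' hg' e
    obtain ⟨h1, h2⟩ := hH1 i.val j.val g hg g' hg' e
    exact ⟨Fin.ext h1, h2⟩
  · refine le_trans ?_ hn
    have hsub : {y | ∃ g ∈ D, (Finset.univ.filter
        (fun i : Fin (M * n) => b (sh (H i.val * g) y) = true)).card < M} ⊆
        ⋃ g ∈ D, ⋃ m ∈ Finset.range M,
          {y | ∀ i ∈ Finset.Ico (m * n) (m * n + n),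
            φ (fun a : K => y (a.1 * (H i * g))) = false} := by
      rintro y ⟨g, hg, hlt⟩
      by_contra hcon
      simp only [mem_iUnion, Set.mem_ofPred_eq, not_exists] at hcon
      have hall : ∀ m : Finset.range M, ∃ i, i ∈ Finset.Ico (m.1 * n) (m.1 * n + n) ∧
          φ (fun a : K => y (a.1 * (H i * g))) = true := by
        intro m
        have := hcon g hg m.1 m.2
        push Not at this
        obtain ⟨i, hi, h⟩ := this
        exact ⟨i, hi, by simpa using h⟩
      choose I hI1 hI2 using hall
      have hlt2 : ∀ m : Finset.range M, I m < M * n := by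
        intro m
        have h1 := (Finset.mem_Ico.mp (hI1 m)).2
        have h2 : m.1 + 1 ≤ M := Finset.mem_range.mp m.2
        calc I m < m.1 * n + n := h1
          _ = (m.1 + 1) * n := by ring
          _ ≤ M * n := Nat.mul_le_mul_right _ h2
      have hcard : (Finset.univ : Finset (Finset.range M)).card ≤ (Finset.univ.filter
          (fun i : Fin (M * n) => b (sh (H i.val * g) y) = true)).card := by
        apply Finset.card_le_card_of_injOn (fun m => (⟨I m, hlt2 m⟩ : Fin (M * n)))
        · intro m _
          simp only [Finset.coe_filter, Finset.mem_univ, true_and, Set.mem_ofPred_eq]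
          rw [hφ2]
          exact hI2 m
        · intro m _ m' _ e
          have e' : I m = I m' := congrArg Fin.val e
          have h1 := Finset.mem_Ico.mp (hI1 m)
          have h2 := Finset.mem_Ico.mp (hI1 m')
          rw [← e'] at h2
          apply Subtype.ext
          by_contra hne
          rcases Nat.lt_or_gt_of_ne hne with h | h
          · have : (m.1 + 1) * n ≤ m'.1 * n := Nat.mul_le_mul_right _ h
            rw [add_mul, one_mul] at this
            omega
          · have : (m'.1 + 1) * n ≤ m.1 * n := Nat.mul_le_mul_right _ h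
            rw [add_mul, one_mul] at this
            omega
      rw [Finset.card_univ, Fintype.card_coe, Finset.card_range] at hcard
      omega
    calc iid Γ ν {y | ∃ g ∈ D, (Finset.univ.filter
        (fun i : Fin (M * n) => b (sh (H i.val * g) y) = true)).card < M}
        ≤ iid Γ ν (⋃ g ∈ D, ⋃ m ∈ Finset.range M,
          {y | ∀ i ∈ Finset.Ico (m * n) (m * n + n),
            φ (fun a : K => y (a.1 * (H i * g))) = false}) := measure_mono hsub
      _ ≤ ∑ g ∈ D, ∑ m ∈ Finset.range M, iid Γ ν {y | ∀ i ∈ Finset.Ico (m * n) (m * n + n),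
            φ (fun a : K => y (a.1 * (H i * g))) = false} := by
          refine (measure_biUnion_finset_le _ _).trans ?_
          exact Finset.sum_le_sum fun g _ => measure_biUnion_finset_le _ _
      _ = ∑ g ∈ D, ∑ m ∈ Finset.range M, q ^ n := by
          refine Finset.sum_congr rfl fun g _ => Finset.sum_congr rfl fun m _ => ?_
          rw [key ν K φ H hH2 g]
          simp [hq]
      _ = ((D.card * M : ℕ) : ENNReal) * q ^ n := by
          simp [Finset.sum_const, nsmul_eq_mul, mul_assoc]

end Pool.Agent.W853.FIMANY
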